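import Pool.Agent.U89.DL.Step

/-!
# Groups with deletions and the deletion filtration

Owner helper89.
-/

set_option autoImplicit false

namespace Pool.Agent.U89.DL

open Pool.Agent.Y110.FJ

variable {P I : Type} [Group P]

/-- `P` is generated by the subgroups `B i`, and for every finite set `D` of indices the endomorphism
`e D` of `P` is the identity on `B i` for `i ∈ D` and trivial on `B i` for `i ∉ D` -/
structure Deletions (B : I → Subgroup P) (e : Finset I → P →* P) : Prop where
  gen : ⨆ i, B i = ⊤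
  keep : ∀ D i, i ∈ D → ∀ b ∈ B i, e D b = b
  kill : ∀ D i, i ∉ D → ∀ b ∈ B i, e D b = 1

/-- `g` maps each `B i` into a conjugate of `B (π g i)` -/
def Symmetric {G : Type} [Group G] (B : I → Subgroup P) (α : G →* MulAut P)
    (π : G →* Equiv.Perm I) : Prop :=
  ∀ g i, ∃ u : P, ∀ b ∈ B i, u⁻¹ * α g b * u ∈ B (π g i)

/-- the elements of `N` fix all the indices and, pointwise, almost all subgroups `B i`, and only `1`
acts trivially on `P` -/
structure Finitary {G : Type} [Group G] (N : Subgroup G) (B : I → Subgroup P) (α : G →* MulAut P)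
    (π : G →* Equiv.Perm I) : Prop where
  pure : ∀ n ∈ N, π n = 1
  fin : ∀ n ∈ N, {i | ∃ b ∈ B i, α n b ≠ b}.Finite
  faithful : ∀ n ∈ N, α n = 1 → n = 1

variable {B : I → Subgroup P} {e : Finset I → P →* P}

/-- the group generated by the `B i`, `i ∈ J` -/
def PJ (B : I → Subgroup P) (J : Finset I) : Subgroup P := ⨆ i ∈ J, B i

theorem le_PJ {J : Finset I} {i : I} (hi : i ∈ J) : B i ≤ PJ B J := le_iSup₂ (f := fun i _ => B i) i hi

theorem PJ_mono {J J' : Finset I} (h : J ⊆ J') : PJ B J ≤ PJ B J' :=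
  iSup₂_le fun _ hi => le_PJ (h hi)

theorem hom_ext (hd : Deletions B e) {Q : Type} [Group Q] {f f' : P →* Q}
    (h : ∀ i, ∀ b ∈ B i, f b = f' b) (x : P) : f x = f' x := by
  have h1 : (⨆ i, B i) ≤ f.eqLocus f' := iSup_le fun i b hb => h i b hb
  rw [hd.gen] at h1
  exact h1 (Subgroup.mem_top x)

theorem exists_PJ (hd : Deletions B e) (x : P) : ∃ J : Finset I, x ∈ PJ B J := by
  classical
  let D : Subgroup P :=
    { carrier := {x | ∃ J : Finset I, x ∈ PJ B J}
      one_mem' := ⟨∅, one_mem _⟩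
      mul_mem' := by
        rintro x y ⟨S, hS⟩ ⟨T, hT⟩
        exact ⟨S ∪ T, mul_mem (PJ_mono Finset.subset_union_left hS)
          (PJ_mono Finset.subset_union_right hT)⟩
      inv_mem' := by
        rintro x ⟨S, hS⟩
        exact ⟨S, inv_mem hS⟩ }
  have hD : (⨆ i, B i) ≤ D := iSup_le fun i b hb => ⟨{i}, le_PJ (Finset.mem_singleton_self i) hb⟩
  rw [hd.gen] at hD
  exact hD (Subgroup.mem_top x)

/-- `e D` and `e D'` agree on `PJ B J` if `D` and `D'` agree on `J` -/
theorem e_congr (hd : Deletions B e) {J D D' : Finset I} (h : ∀ i ∈ J, i ∈ D ↔ i ∈ D') {x : P}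
    (hx : x ∈ PJ B J) : e D x = e D' x := by
  have h1 : PJ B J ≤ (e D).eqLocus (e D') := by
    refine iSup₂_le fun i hi b hb => ?_
    show e D b = e D' b
    by_cases h2 : i ∈ D
    · rw [hd.keep D i h2 b hb, hd.keep D' i ((h i hi).1 h2) b hb]
    · rw [hd.kill D i h2 b hb, hd.kill D' i (fun h3 => h2 ((h i hi).2 h3)) b hb]
  exact h1 hx

theorem e_self (hd : Deletions B e) {J : Finset I} {x : P} (hx : x ∈ PJ B J) : e J x = x := by
  have h1 : PJ B J ≤ (e J).eqLocus (MonoidHom.id P) :=
    iSup₂_le fun i hi b hb => hd.keep J i hi b hb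
  exact h1 hx

theorem e_idem (hd : Deletions B e) (D : Finset I) (x : P) : e D (e D x) = e D x := by
  have h1 := hom_ext hd (f := (e D).comp (e D)) (f' := e D) (fun i b hb => by
    by_cases h2 : i ∈ D
    · rw [MonoidHom.comp_apply, hd.keep D i h2 b hb, hd.keep D i h2 b hb]
    · rw [MonoidHom.comp_apply, hd.kill D i h2 b hb, map_one]) x
  exact h1

theorem e_empty (hd : Deletions B e) (x : P) : e ∅ x = 1 := by
  have h1 := hom_ext hd (f := e ∅) (f' := (1 : P →* P)) (fun i b hb =>
    hd.kill ∅ i (Finset.notMem_empty i) b hb) x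
  exact h1

section action

variable {G : Type} [Group G] {α : G →* MulAut P} {π : G →* Equiv.Perm I}

/-- the action on the finite sets of indices -/
def piF (π : G →* Equiv.Perm I) : G →* Equiv.Perm (Finset I) where
  toFun g := Equiv.finsetCongr (π g)
  map_one' := by
    rw [map_one]
    exact Equiv.finsetCongr_refl
  map_mul' g h := by
    rw [map_mul]
    ext D i
    simp only [Equiv.finsetCongr_apply, Equiv.Perm.mul_apply, Finset.mem_map_equiv]
    exact Iff.rfl

theorem mem_piF {g : G} {D : Finset I} {i : I} : π g i ∈ piF π g D ↔ i ∈ D := by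
  show π g i ∈ D.map (π g).toEmbedding ↔ i ∈ D
  exact Finset.mem_map' _

theorem card_piF (g : G) (D : Finset I) : (piF π g D).card = D.card := Finset.card_map _

/-- the basic identity -/
theorem star (hd : Deletions B e) (hs : Symmetric B α π) (g : G) (D : Finset I) (x : P) :
    e (piF π g D) (α g (e D x)) = e (piF π g D) (α g x) := by
  have h1 := hom_ext hd (f := (e (piF π g D)).comp ((α g).toMonoidHom.comp (e D)))
    (f' := (e (piF π g D)).comp (α g).toMonoidHom) (fun i b hb => by
      show e (piF π g D) (α g (e D b)) = e (piF π g D) (α g b)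
      by_cases h2 : i ∈ D
      · rw [hd.keep D i h2 b hb]
      · obtain ⟨u, hu⟩ := hs g i
        rw [hd.kill D i h2 b hb, map_one, map_one]
        have h3 := hd.kill (piF π g D) (π g i) (fun h => h2 (mem_piF.1 h)) _ (hu b hb)
        rw [map_mul, map_mul, map_inv] at h3
        have h4 := congrArg (fun z => e (piF π g D) u * z * (e (piF π g D) u)⁻¹) h3
        simp only [mul_one, mul_inv_cancel] at h4
        rw [← h4]
        group) x
  exact h1

/-- `g` acts trivially on the quotient `e D` -/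
def Ker (e : Finset I → P →* P) (α : G →* MulAut P) (D : Finset I) (g : G) : Prop :=
  ∀ y, e D (α g y) = e D y

theorem Ker.one (D : Finset I) : Ker e α D 1 := by
  intro y
  rw [map_one]
  rfl

theorem Ker.mul {D : Finset I} {g h : G} (hg : Ker e α D g) (hh : Ker e α D h) :
    Ker e α D (g * h) := by
  intro y
  rw [map_mul]
  show e D (α g (α h y)) = _
  rw [hg, hh]

theorem Ker.inv {D : Finset I} {g : G} (hg : Ker e α D g) : Ker e α D g⁻¹ := by
  intro y
  have h1 := hg (α g⁻¹ y)
  have h2 : α g (α g⁻¹ y) = y := by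
    rw [← MulAut.mul_apply, ← map_mul, mul_inv_cancel, map_one]
    rfl
  rw [h2] at h1
  exact h1.symm

theorem Ker.conj (hd : Deletions B e) (hs : Symmetric B α π) {D : Finset I} {x : G}
    (hx : Ker e α D x) (g : G) : Ker e α (piF π g D) (g * x * g⁻¹) := by
  intro y
  obtain ⟨z, rfl⟩ : ∃ z, y = α g z := ⟨(α g).symm y, ((α g).apply_symm_apply y).symm⟩
  have h1 : α (g * x * g⁻¹) (α g z) = α g (α x z) := by
    rw [← MulAut.mul_apply, ← MulAut.mul_apply, ← map_mul, ← map_mul]
    congr 2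
    group
  rw [h1, ← star hd hs, hx, star hd hs]

/-- the elements which are supported in `J` -/
def Sup (B : I → Subgroup P) (α : G →* MulAut P) (J : Finset I) : Subgroup G where
  carrier := {x | (∀ i, i ∉ J → ∀ b ∈ B i, α x b = b) ∧ (∀ y ∈ PJ B J, α x y ∈ PJ B J) ∧
    ∀ y ∈ PJ B J, α x⁻¹ y ∈ PJ B J}
  one_mem' := by
    refine ⟨fun i _ b _ => ?_, fun y hy => ?_, fun y hy => ?_⟩
    · rw [map_one]
      rfl
    · rw [map_one]
      exact hy
    · rw [inv_one, map_one]
      exact hy
  mul_mem' := by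
    rintro x y ⟨h1, h2, h3⟩ ⟨h4, h5, h6⟩
    refine ⟨fun i hi b hb => ?_, fun z hz => ?_, fun z hz => ?_⟩
    · rw [map_mul, MulAut.mul_apply, h4 i hi b hb, h1 i hi b hb]
    · rw [map_mul, MulAut.mul_apply]
      exact h2 _ (h5 z hz)
    · rw [mul_inv_rev, map_mul, MulAut.mul_apply]
      exact h6 _ (h3 z hz)
  inv_mem' := by
    rintro x ⟨h1, h2, h3⟩
    refine ⟨fun i hi b hb => ?_, h3, fun z hz => ?_⟩
    · have h4 := congrArg (α x⁻¹) (h1 i hi b hb)
      rw [← MulAut.mul_apply, ← map_mul, inv_mul_cancel, map_one] at h4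
      exact h4.symm
    · rw [inv_inv]
      exact h2 z hz

theorem Sup.mono {J J' : Finset I} (h : J ⊆ J') : Sup B α J ≤ Sup B α J' := by
  rintro x ⟨h1, h2, h3⟩
  have key : ∀ z : G, (∀ i, i ∉ J → ∀ b ∈ B i, α z b = b) → (∀ y ∈ PJ B J, α z y ∈ PJ B J) →
      ∀ y ∈ PJ B J', α z y ∈ PJ B J' := by
    intro z h4 h5
    have h6 : PJ B J' ≤ (PJ B J').comap (α z).toMonoidHom := by
      refine iSup₂_le fun i hi b hb => ?_
      show α z b ∈ PJ B J'
      by_cases h7 : i ∈ J
      · exact PJ_mono h (h5 b (le_PJ h7 hb))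
      · rw [h4 i h7 b hb]
        exact le_PJ hi hb
    exact fun y hy => h6 hy
  have hinv := (Sup B α J).inv_mem ⟨h1, h2, h3⟩
  exact ⟨fun i hi b hb => h1 i (fun h7 => hi (h h7)) b hb, key x h1 h2, key x⁻¹ hinv.1 hinv.2.1⟩

theorem exists_sup (hd : Deletions B e) (hs : Symmetric B α π) {N : Subgroup G}
    (hN : Finitary N B α π) {n : G} (hn : n ∈ N) : ∃ J : Finset I, n ∈ Sup B α J := by
  classical
  have half : ∀ m ∈ N, ∃ J : Finset I, ∀ J' : Finset I, J ⊆ J' →
      (∀ i, i ∉ J' → ∀ b ∈ B i, α m b = b) ∧ ∀ y ∈ PJ B J', α m y ∈ PJ B J' := by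
    intro m hm
    have h1 : ∀ i, ∃ S : Finset I, ∀ b ∈ B i, α m b ∈ PJ B (insert i S) := by
      intro i
      obtain ⟨u, hu⟩ := hs m i
      obtain ⟨S, hS⟩ := exists_PJ hd u
      refine ⟨S, fun b hb => ?_⟩
      have h2 := hu b hb
      rw [hN.pure m hm] at h2
      have h3 : α m b = u * (u⁻¹ * α m b * u) * u⁻¹ := by group
      rw [h3]
      have h4 := PJ_mono (B := B) (Finset.subset_insert i S) hS
      exact mul_mem (mul_mem h4 (le_PJ (Finset.mem_insert_self i S) h2)) (inv_mem h4)
    choose S hS using h1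
    refine ⟨(hN.fin m hm).toFinset ∪ (hN.fin m hm).toFinset.biUnion S, fun J' hJ' => ?_⟩
    have hfix : ∀ i, i ∉ (hN.fin m hm).toFinset → ∀ b ∈ B i, α m b = b := by
      intro i hi b hb
      by_contra hne
      exact hi ((Set.Finite.mem_toFinset _).2 ⟨b, hb, hne⟩)
    refine ⟨fun i hi b hb => hfix i (fun h => hi (hJ' (Finset.mem_union_left _ h))) b hb, ?_⟩
    have h6 : PJ B J' ≤ (PJ B J').comap (α m).toMonoidHom := by
      refine iSup₂_le fun i hi b hb => ?_
      show α m b ∈ PJ B J'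
      by_cases h7 : i ∈ (hN.fin m hm).toFinset
      · refine PJ_mono ?_ (hS i b hb)
        intro j hj
        rcases Finset.mem_insert.1 hj with rfl | hj
        · exact hi
        · exact hJ' (Finset.mem_union_right _ (Finset.mem_biUnion.2 ⟨i, h7, hj⟩))
      · rw [hfix i h7 b hb]
        exact le_PJ hi hb
    exact fun y hy => h6 hy
  obtain ⟨J, hJ⟩ := half n hn
  obtain ⟨J', hJ'⟩ := half n⁻¹ (inv_mem hn)
  exact ⟨J ∪ J', (hJ _ Finset.subset_union_left).1, (hJ _ Finset.subset_union_left).2,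
    (hJ' _ Finset.subset_union_right).2⟩

theorem Sup.ker (hd : Deletions B e) {J : Finset I} {x : G} (hx : x ∈ Sup B α J) [DecidableEq I]
    {D : Finset I} (h : Ker e α (D ∩ J) x) : Ker e α D x := by
  obtain ⟨h1, h2, -⟩ := hx
  intro y
  have h3 := hom_ext hd (f := (e D).comp (α x).toMonoidHom) (f' := e D) (fun i b hb => by
    show e D (α x b) = e D b
    by_cases hi : i ∈ J
    · have hag : ∀ j ∈ J, j ∈ D ↔ j ∈ D ∩ J := fun j hj =>
        ⟨fun h => Finset.mem_inter.2 ⟨h, hj⟩, fun h => (Finset.mem_inter.1 h).1⟩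
      rw [e_congr hd hag (h2 b (le_PJ hi hb)), h b, ← e_congr hd hag (le_PJ hi hb)]
    · rw [h1 i hi b hb]) y
  exact h3

theorem Sup.eq_one (hd : Deletions B e) {J : Finset I} {x : G} (hx : x ∈ Sup B α J)
    (h : Ker e α J x) : α x = 1 := by
  obtain ⟨h1, h2, -⟩ := hx
  ext y
  have h3 := hom_ext hd (f := (α x).toMonoidHom) (f' := MonoidHom.id P) (fun i b hb => by
    show α x b = b
    by_cases hi : i ∈ J
    · have h4 := h b
      rwa [e_self hd (h2 b (le_PJ hi hb)), e_self hd (le_PJ hi hb)] at h4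
    · exact h1 i hi b hb) y
  exact h3

/-- the deletion filtration -/
def lev (N : Subgroup G) (e : Finset I → P →* P) (α : G →* MulAut P) (d : ℕ) : Subgroup G where
  carrier := {x | x ∈ N ∧ ∀ D : Finset I, D.card < d → Ker e α D x}
  one_mem' := ⟨one_mem _, fun D _ => Ker.one D⟩
  mul_mem' := fun h1 h2 => ⟨mul_mem h1.1 h2.1, fun D hD => (h1.2 D hD).mul (h2.2 D hD)⟩
  inv_mem' := fun h1 => ⟨inv_mem h1.1, fun D hD => (h1.2 D hD).inv⟩

theorem mem_lev {N : Subgroup G} {d : ℕ} {x : G} :
    x ∈ lev N e α d ↔ x ∈ N ∧ ∀ D : Finset I, D.card < d → Ker e α D x := Iff.rfl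

theorem lev_zero (N : Subgroup G) : lev N e α 0 = N := by
  ext x
  rw [mem_lev]
  exact ⟨fun h => h.1, fun h => ⟨h, fun D hD => absurd hD (Nat.not_lt_zero _)⟩⟩

theorem lev_normal (hd : Deletions B e) (hs : Symmetric B α π) (N : Subgroup G) [N.Normal]
    (d : ℕ) : (lev N e α d).Normal := by
  constructor
  rintro x ⟨hx, h⟩ g
  refine ⟨‹N.Normal›.conj_mem x hx g, fun D hD => ?_⟩
  have h1 := (h (piF π g⁻¹ D) (by rw [card_piF]; exact hD)).conj hd hs g
  have h2 : piF π g (piF π g⁻¹ D) = D := by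
    rw [← Equiv.Perm.mul_apply, ← map_mul, mul_inv_cancel, map_one]
    rfl
  rwa [h2] at h1

/-- **the quotients by the members of the deletion filtration are in `C`** -/
theorem levels {C : ∀ (G : Type) [Group G], Prop} (hC : ClosedE C) (hd : Deletions B e)
    (hs : Symmetric B α π) (N : Subgroup G) [N.Normal] (hN : Finitary N B α π)
    (hQ : C (G ⧸ N))
    (hloc : ∀ D : Finset I, ∃ (A : Type) (_ : Group A) (f : ↥(Stb (piF π) D) →* A), C A ∧
      ∀ v : ↥(Stb (piF π) D), (v : G) ∈ N → (f v = 1 ↔ Ker e α D v)) (d : ℕ) :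
    ∃ _ : (lev N e α d).Normal, C (G ⧸ lev N e α d) := by
  classical
  induction d with
  | zero =>
    have h := lev_zero (e := e) (α := α) N
    rw [h]
    exact ⟨inferInstance, hQ⟩
  | succ d ih =>
    obtain ⟨hn, ih⟩ := ih
    have hn' := lev_normal hd hs N (d + 1)
    refine ⟨hn', ?_⟩
    refine relStep hC (piF π) (lev N e α (d + 1)) (lev N e α d) ?_
      (fun D x => D.card = d → Ker e α D x) ?_ ?_ ?_ ?_ ?_ ih
    · rintro v ⟨hv, -⟩
      have h1 := hN.pure v hv
      show Equiv.finsetCongr (π v) = 1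
      rw [h1]
      exact Equiv.finsetCongr_refl
    · intro g D x h hD
      rw [card_piF] at hD
      exact (h hD).conj hd hs g
    · rintro v ⟨hv, h⟩
      obtain ⟨J, hJ⟩ := exists_sup hd hs hN hv
      refine (Finset.finite_toSet J.powerset).subset ?_
      intro D hD
      rw [Set.mem_ofPred_eq, Classical.not_imp] at hD
      rw [Finset.mem_coe, Finset.mem_powerset]
      by_contra hDJ
      apply hD.2
      refine Sup.ker hd hJ (h _ ?_)
      rw [← hD.1]
      refine Finset.card_lt_card ⟨Finset.inter_subset_left, fun h1 => hDJ ?_⟩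
      exact h1.trans Finset.inter_subset_right
    · rintro v ⟨hv, h⟩
      constructor
      · rintro ⟨-, h1⟩ D hD
        exact h1 D (by omega)
      · intro h1
        refine ⟨hv, fun D hD => ?_⟩
        by_cases h2 : D.card = d
        · exact h1 D h2
        · exact h D (by omega)
    · rintro v ⟨hv, h⟩
      exact ⟨hv, fun D hD => h D (by omega)⟩
    · intro D
      by_cases hD : D.card = d
      · obtain ⟨A, gA, f, hA, hf⟩ := hloc D
        refine ⟨A, gA, f, hA, fun v hv => ?_⟩
        rw [hf v hv.1]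
        exact ⟨fun h _ => h, fun h => h hD⟩
      · refine ⟨PUnit, inferInstance, 1, ?_, fun v _ => ?_⟩
        · exact hC.base.of_injective PUnit (Multiplicative ℤ) 1
            (fun a b _ => Subsingleton.elim a b) hC.base.int
        · exact ⟨fun _ h => absurd h hD, fun _ => rfl⟩

end action

end Pool.Agent.U89.DL
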