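import Pool.Agent.U89.DL.Del
import Pool.Agent.R942.FJ.Det

/-!
# The deletion theorem

Owner helper89.
-/

set_option autoImplicit false

namespace Pool.Agent.U89.DL

open Pool.Agent.Y462.SS (Wr Closed)
open Pool.Agent.Y110.FJ
open Pool.Agent.U863.TG (Fsp finitary)

variable {P I : Type} [Group P] {B : I → Subgroup P} {e : Finset I → P →* P}
  {G : Type} [Group G] {α : G →* MulAut P} {π : G →* Equiv.Perm I}

/-- the group of automorphisms of `e D (P)` which is induced by the elements of `S` -/
def Induced (e : Finset I → P →* P) (α : G →* MulAut P) (D : Finset I) (S : Subgroup G) :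
    Subgroup (MulAut ↥(e D).range) :=
  Subgroup.closure {a | ∃ x ∈ S, ∀ y : ↥(e D).range, (a y : P) = e D (α x y)}

/-- the elements of `N` fix almost all indices and, pointwise, almost all subgroups `B i`, and only `1`
acts trivially on `P` -/
structure AlmostTrivial (N : Subgroup G) (B : I → Subgroup P) (α : G →* MulAut P)
    (π : G →* Equiv.Perm I) : Prop where
  fin : ∀ n ∈ N, {i | π n i ≠ i ∨ ∃ b ∈ B i, α n b ≠ b}.Finite
  faithful : ∀ n ∈ N, α n = 1 → n = 1

theorem piF_inv {g : G} {D : Finset I} (h : piF π g D = D) : piF π g⁻¹ D = D := by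
  rw [map_inv, Equiv.Perm.inv_eq_iff_eq]
  exact h.symm

theorem star' (hd : Deletions B e) (hs : Symmetric B α π) {g : G} {D : Finset I}
    (h : piF π g D = D) (x : P) : e D (α g (e D x)) = e D (α g x) := by
  have h1 := star hd hs g D x
  rwa [h] at h1

theorem e_range (hd : Deletions B e) {D : Finset I} (y : ↥(e D).range) : e D y = y := by
  obtain ⟨_, ⟨z, rfl⟩⟩ := y
  exact e_idem hd D z

/-- the action of the stabilizer of `D` on `e D (P)` -/
def ind (hd : Deletions B e) (hs : Symmetric B α π) (D : Finset I) :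
    ↥(Stb (piF π) D) →* MulAut ↥(e D).range where
  toFun x :=
    { toFun := fun y => ⟨e D (α x y), ⟨_, rfl⟩⟩
      invFun := fun y => ⟨e D (α (x : G)⁻¹ y), ⟨_, rfl⟩⟩
      left_inv := by
        intro y
        apply Subtype.ext
        show e D (α (x : G)⁻¹ (e D (α x y))) = y
        rw [star' hd hs (piF_inv x.2), ← MulAut.mul_apply, ← map_mul, inv_mul_cancel, map_one]
        exact e_range hd y
      right_inv := by
        intro y
        apply Subtype.ext
        show e D (α x (e D (α (x : G)⁻¹ y))) = y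
        rw [star' hd hs x.2, ← MulAut.mul_apply, ← map_mul, mul_inv_cancel, map_one]
        exact e_range hd y
      map_mul' := by
        intro y z
        apply Subtype.ext
        show e D (α x (y * z)) = e D (α x y) * e D (α x z)
        rw [map_mul, map_mul] }
  map_one' := by
    ext y
    show e D (α (1 : G) y) = y
    rw [map_one]
    exact e_range hd y
  map_mul' x x' := by
    ext y
    show e D (α ((x : G) * x') y) = e D (α x (e D (α x' y)))
    rw [star' hd hs x.2, map_mul]
    rfl

theorem ind_eq_one (hd : Deletions B e) (hs : Symmetric B α π) {D : Finset I}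
    (x : ↥(Stb (piF π) D)) : ind hd hs D x = 1 ↔ Ker e α D x := by
  constructor
  · intro h y
    have h1 := congrArg (fun a : MulAut ↥(e D).range => ((a ⟨e D y, ⟨y, rfl⟩⟩ : ↥(e D).range) : P)) h
    have h2 : e D (α x (e D y)) = e D y := h1
    rwa [star' hd hs x.2] at h2
  · intro h
    ext y
    show e D (α x y) = y
    rw [h]
    exact e_range hd y

/-- the step for the permutations of the indices -/
theorem permStep {C : ∀ (G : Type) [Group G], Prop} (hC : ClosedE C) (N : Subgroup G) [N.Normal]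
    (hfin : ∀ n ∈ N, {i | π n i ≠ i}.Finite) (hQ : C (G ⧸ N)) : C (G ⧸ N ⊓ π.ker) := by
  let M : Subgroup G := N ⊓ π.ker
  have hM : M.Normal := inferInstance
  let F : G →* Wr I PUnit :=
    { toFun := fun g => ⟨fun _ => 1, π g⟩
      map_one' := Wr.ext rfl (map_one π)
      map_mul' := fun g g' => Wr.ext rfl (map_mul π g g') }
  have hFM : ∀ m ∈ M, F m = 1 := fun m hm => Wr.ext rfl hm.2
  let F' : G ⧸ M →* Wr I PUnit := QuotientGroup.lift M F hFM
  have hF' : ∀ g : G, F' (QuotientGroup.mk' M g) = F g := fun _ => rfl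
  have hVn : (N.map (QuotientGroup.mk' M)).Normal :=
    Subgroup.Normal.map inferInstance _ (QuotientGroup.mk'_surjective M)
  have hQ' : C ((G ⧸ M) ⧸ N.map (QuotientGroup.mk' M)) := by
    have hMN : M ≤ N := inf_le_left
    refine hC.base.of_injective _ (G ⧸ N) (QuotientGroup.lift _
      (QuotientGroup.map M N (MonoidHom.id G) hMN) ?_) ?_ hQ
    · rintro _ ⟨v, hv, rfl⟩
      show QuotientGroup.map M N (MonoidHom.id G) hMN (QuotientGroup.mk' M v) = 1
      exact (QuotientGroup.eq_one_iff v).2 hv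
    · rw [injective_iff_map_eq_one]
      intro x hx
      obtain ⟨y, rfl⟩ := QuotientGroup.mk'_surjective _ x
      obtain ⟨z, rfl⟩ := QuotientGroup.mk'_surjective _ y
      have hz : z ∈ N := (QuotientGroup.eq_one_iff z).1 hx
      exact (QuotientGroup.eq_one_iff _).2 ⟨z, hz, rfl⟩
  have hA : C PUnit := hC.base.of_injective PUnit (Multiplicative ℤ) 1
    (fun a b _ => Subsingleton.elim a b) hC.base.int
  refine finitary hC hA F' (N.map (QuotientGroup.mk' M)) hQ' ?_
  rintro _ ⟨v, hv, rfl⟩
  have hv' : v ∈ N := hv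
  rw [hF']
  refine ⟨⟨(hfin v hv').toFinset, fun i hi => ?_⟩, fun h => ?_⟩
  · rw [Set.Finite.mem_toFinset] at hi
    refine ⟨rfl, ?_⟩
    by_contra hcon
    exact hi hcon
  · exact (QuotientGroup.eq_one_iff v).2 ⟨hv', congrArg Wr.p h⟩

/-- **the deletion theorem** -/
theorem main {C : ∀ (G : Type) [Group G], Prop} (hC : ClosedE C) (hd : Deletions B e)
    (hs : Symmetric B α π) (N : Subgroup G) [N.Normal] (hN : AlmostTrivial N B α π)
    (hQ : C (G ⧸ N))
    (hloc : ∀ (D : Finset I) (g : G),
      C ↥(Induced e α D ((N ⊔ Subgroup.zpowers g) ⊓ Stb (piF π) D))) : C G := by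
  classical
  have hQ₀ : C (G ⧸ N ⊓ π.ker) := by
    refine permStep hC N (fun n hn => (hN.fin n hn).subset ?_) hQ
    intro i hi
    exact Or.inl hi
  have hfin₀ : Finitary (N ⊓ π.ker) B α π := by
    refine ⟨fun n hn => hn.2, fun n hn => (hN.fin n hn.1).subset ?_, fun n hn => hN.faithful n hn.1⟩
    intro i hi
    exact Or.inr hi
  refine Pool.Agent.R942.FJ.main_detected hC (N ⊓ π.ker) ?_ hQ₀
  intro g E hE hEN
  -- a common support
  obtain ⟨J, hJ⟩ : ∃ J : Finset I, Subgroup.closure E ≤ Sup B α J := by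
    have h1 : ∀ n : G, ∃ J : Finset I, n ∈ E → n ∈ Sup B α J := by
      intro n
      by_cases hn : n ∈ E
      · obtain ⟨J, hJ⟩ := exists_sup hd hs hfin₀ (hEN hn)
        exact ⟨J, fun _ => hJ⟩
      · exact ⟨∅, fun h => absurd h hn⟩
    choose Js hJs using h1
    refine ⟨hE.toFinset.biUnion Js, ?_⟩
    rw [Subgroup.closure_le]
    intro n hn
    refine Sup.mono ?_ (hJs n hn)
    exact Finset.subset_biUnion_of_mem Js (hE.mem_toFinset.2 hn)
  let H : Subgroup G := (N ⊓ π.ker) ⊔ Subgroup.zpowers g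
  let α' : H →* MulAut P := α.comp H.subtype
  let π' : H →* Equiv.Perm I := π.comp H.subtype
  let N' : Subgroup H := (N ⊓ π.ker).subgroupOf H
  have hs' : Symmetric B α' π' := fun x i => hs x i
  have hN' : Finitary N' B α' π' :=
    ⟨fun n hn => hfin₀.pure n hn, fun n hn => hfin₀.fin n hn,
      fun n hn h => Subtype.ext (hfin₀.faithful n hn h)⟩
  have hQ' : C (H ⧸ N') := by
    refine hC.base.of_injective _ _ (QuotientGroup.lift N'
      ((QuotientGroup.mk' (N ⊓ π.ker)).comp H.subtype) ?_) ?_ hQ₀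
    · intro x hx
      exact (QuotientGroup.eq_one_iff _).2 hx
    · rw [injective_iff_map_eq_one]
      intro x hx
      obtain ⟨y, rfl⟩ := QuotientGroup.mk'_surjective _ x
      exact (QuotientGroup.eq_one_iff y).2 ((QuotientGroup.eq_one_iff (y : G)).1 hx)
  have hpF : ∀ (x : H) (D : Finset I), piF π' x D = piF π x D := fun _ _ => rfl
  have hloc' : ∀ D : Finset I, ∃ (A : Type) (_ : Group A) (f : ↥(Stb (piF π') D) →* A), C A ∧
      ∀ v : ↥(Stb (piF π') D), (v : H) ∈ N' → (f v = 1 ↔ Ker e α' D v) := by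
    intro D
    let S : Subgroup G := (N ⊔ Subgroup.zpowers g) ⊓ Stb (piF π) D
    have hHN : H ≤ N ⊔ Subgroup.zpowers g := sup_le_sup_right inf_le_left _
    have hmem : ∀ x : ↥(Stb (piF π') D), ((x : H) : G) ∈ S := fun x => ⟨hHN x.1.2, x.2⟩
    have hmem2 : ∀ x : ↥(Stb (piF π') D), ind hd hs' D x ∈ Induced e α D S := fun x =>
      Subgroup.subset_closure ⟨_, hmem x, fun y => rfl⟩
    refine ⟨↥(Induced e α D S), inferInstance,
      (ind hd hs' D).codRestrict (Induced e α D S) hmem2, hloc D g, fun v _ => ?_⟩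
    rw [← ind_eq_one hd hs' v]
    constructor
    · intro h
      exact congrArg Subtype.val h
    · intro h
      exact Subtype.ext h
  obtain ⟨hln, hl⟩ := levels hC hd hs' N' hN' hQ' hloc' (J.card + 1)
  refine ⟨H ⧸ lev N' e α' (J.card + 1), inferInstance,
    QuotientGroup.mk' (lev N' e α' (J.card + 1)), hl, ?_⟩
  intro x hx h1
  have h2 : x ∈ lev N' e α' (J.card + 1) := (QuotientGroup.eq_one_iff x).1 h1
  have h3 : Ker e α J (x : G) := h2.2 J (Nat.lt_succ_self _)
  have h4 := Sup.eq_one hd (hJ hx) h3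
  exact Subtype.ext (hfin₀.faithful _ h2.1 h4)

end Pool.Agent.U89.DL
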