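import Pool.Agent.U863.TG.Fs
import Pool.Agent.U863.CT.Gpd

/-!
# Kernels in restricted products of quotients, permuted by the group

Owner helper89.
-/

set_option autoImplicit false

namespace Pool.Agent.U89.DL

open Pool.Agent.Y462.SS (Wr Closed)
open Pool.Agent.Y110.FJ
open Pool.Agent.U863.TG (Fsp finitary)

variable {C : ∀ (G : Type) [Group G], Prop}

/-- the stabilizer of a point -/
def Stb {G I : Type} [Group G] (π : G →* Equiv.Perm I) (i : I) : Subgroup G where
  carrier := {g | π g i = i}
  one_mem' := by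
    show π 1 i = i
    rw [map_one]
    rfl
  mul_mem' := by
    intro a b ha hb
    show π (a * b) i = i
    rw [map_mul, Equiv.Perm.mul_apply]
    have h1 : π b i = i := hb
    rw [h1]
    exact ha
  inv_mem' := by
    intro a ha
    show π a⁻¹ i = i
    rw [map_inv, Equiv.Perm.inv_eq_iff_eq]
    exact (show π a i = i from ha).symm

theorem mem_stb {G I : Type} [Group G] {π : G →* Equiv.Perm I} {i : I} {g : G} :
    g ∈ Stb π i ↔ π g i = i := Iff.rfl

/-- representatives of the orbits -/
theorem exists_rep {G I : Type} [Group G] (π : G →* Equiv.Perm I) : ∃ (r : I → I) (k : I → G),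
    (∀ g i, r (π g i) = r i) ∧ ∀ i, π (k i) (r i) = i := by
  let s : Setoid I :=
    { r := fun i j => ∃ g, π g i = j
      iseqv :=
        { refl := fun i => ⟨1, by rw [map_one]; rfl⟩
          symm := by
            rintro i j ⟨g, rfl⟩
            exact ⟨g⁻¹, by rw [map_inv]; exact (π g).symm_apply_apply i⟩
          trans := by
            rintro i j l ⟨g, rfl⟩ ⟨h, rfl⟩
            exact ⟨h * g, by rw [map_mul]; rfl⟩ } }
  have h1 : ∀ i : I, ∃ g : G, π g (Quotient.out (Quotient.mk s i)) = i := fun i =>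
    Quotient.mk_out (s := s) i
  choose k hk using h1
  refine ⟨fun i => Quotient.out (Quotient.mk s i), k, fun g i => ?_, hk⟩
  have h3 : Quotient.mk s (π g i) = Quotient.mk s i :=
    Quotient.sound (s.symm ⟨g, rfl⟩)
  show Quotient.out (Quotient.mk s (π g i)) = _
  rw [h3]

/-- a relative version of the theorem on restricted products -/
theorem relStep (hC : ClosedE C) {G I : Type} [Group G] (π : G →* Equiv.Perm I)
    (M V : Subgroup G) [M.Normal] [V.Normal] (hV1 : ∀ v ∈ V, π v = 1)
    (K : I → G → Prop) (hK : ∀ g i x, K i x → K (π g i) (g * x * g⁻¹))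
    (hfin : ∀ v ∈ V, {i | ¬ K i v}.Finite) (hM : ∀ v ∈ V, v ∈ M ↔ ∀ i, K i v) (hMV : M ≤ V)
    (hloc : ∀ i, ∃ (A : Type) (_ : Group A) (f : ↥(Stb π i) →* A), C A ∧
      ∀ v : ↥(Stb π i), (v : G) ∈ V → (f v = 1 ↔ K i v)) (hQ : C (G ⧸ V)) : C (G ⧸ M) := by
  classical
  obtain ⟨r, k, hr, hk⟩ := exists_rep π
  choose A gA f hA hf using hloc
  have hsec : ∀ (g : G) (i : I), π ((k (π g i))⁻¹ * g * k i) (r i) = r i := by
    intro g i
    rw [map_mul, map_mul, Equiv.Perm.mul_apply, Equiv.Perm.mul_apply, hk i, map_inv,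
      Equiv.Perm.inv_eq_iff_eq]
    have := hk (π g i)
    rw [hr] at this
    exact this.symm
  let tt : I → G → Monoid.CoprodI A := fun i x =>
    if hx : x ∈ Stb π i then Monoid.CoprodI.of (i := i) (f i ⟨x, hx⟩) else 1
  have tt_mul : ∀ (i : I) {x y : G}, π x i = i → π y i = i → tt i (x * y) = tt i x * tt i y := by
    intro i x y hx hy
    have hx' : x ∈ Stb π i := hx
    have hy' : y ∈ Stb π i := hy
    show (if hx : x * y ∈ Stb π i then _ else _) = (if hx : x ∈ Stb π i then _ else _) *
      (if hx : y ∈ Stb π i then _ else _)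
    rw [dif_pos hx', dif_pos hy', dif_pos (mul_mem hx' hy'), ← map_mul, ← map_mul]
    rfl
  have tt_one : ∀ (i : I) {x : G} (hx : x ∈ Stb π i), x ∈ V → (tt i x = 1 ↔ K i x) := by
    intro i x hx hxV
    show (if hx : x ∈ Stb π i then _ else _) = 1 ↔ _
    rw [dif_pos hx, map_eq_one_iff _ (Monoid.CoprodI.of_injective i)]
    exact hf i ⟨x, hx⟩ hxV
  let F : G →* Wr I (Monoid.CoprodI A) :=
    { toFun := fun g => ⟨fun i => tt (r i) ((k (π g i))⁻¹ * g * k i), π g⟩
      map_one' := by
        refine Wr.ext (funext fun i => ?_) ?_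
        · show tt (r i) ((k (π 1 i))⁻¹ * 1 * k i) = 1
          have h1 : π 1 i = i := by rw [map_one]; rfl
          rw [h1, mul_one, inv_mul_cancel]
          show (if hx : (1 : G) ∈ Stb π (r i) then _ else _) = 1
          rw [dif_pos (one_mem _)]
          have h2 : (⟨1, one_mem _⟩ : ↥(Stb π (r i))) = 1 := rfl
          rw [h2, map_one, map_one]
        · show π 1 = 1
          exact map_one π
      map_mul' := by
        intro g g'
        refine Wr.ext (funext fun i => ?_) ?_
        · show tt (r i) ((k (π (g * g') i))⁻¹ * (g * g') * k i) =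
            tt (r (π g' i)) ((k (π g (π g' i)))⁻¹ * g * k (π g' i)) *
              tt (r i) ((k (π g' i))⁻¹ * g' * k i)
          rw [hr]
          have h1 := hsec g (π g' i)
          rw [hr] at h1
          rw [← tt_mul _ h1 (hsec g' i)]
          have h2 : π (g * g') i = π g (π g' i) := by rw [map_mul]; rfl
          rw [h2]
          congr 1
          group
        · show π (g * g') = π g * π g'
          exact map_mul π g g' }
  have hFs : ∀ (g : G) (i : I), (F g).s i = tt (r i) ((k (π g i))⁻¹ * g * k i) := fun _ _ => rfl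
  have hFp : ∀ g : G, (F g).p = π g := fun _ => rfl
  have key : ∀ (v : G) (i : I), v ∈ V → ((F v).s i = 1 ↔ K i v) := by
    intro v i hv
    have h0 : π v i = i := by rw [hV1 v hv]; rfl
    have h2 := hsec v i
    rw [h0] at h2
    rw [hFs, h0]
    have hmem : (k i)⁻¹ * v * k i ∈ V := by
      have := ‹V.Normal›.conj_mem v hv (k i)⁻¹
      rwa [inv_inv] at this
    rw [tt_one _ h2 hmem]
    constructor
    · intro h4
      have h5 := hK (k i) _ _ h4
      rw [hk] at h5
      have h6 : k i * ((k i)⁻¹ * v * k i) * (k i)⁻¹ = v := by group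
      rwa [h6] at h5
    · intro h4
      have h5 := hK (k i)⁻¹ _ _ h4
      have h6 : π (k i)⁻¹ i = r i := by
        rw [map_inv, Equiv.Perm.inv_eq_iff_eq]
        exact (hk i).symm
      rwa [h6, inv_inv] at h5
  have hFM : ∀ m ∈ M, F m = 1 := by
    intro m hm
    have hmV := hMV hm
    refine Wr.ext (funext fun i => ?_) ?_
    · exact (key m i hmV).2 ((hM m hmV).1 hm i)
    · rw [hFp]
      exact hV1 m hmV
  let F' : G ⧸ M →* Wr I (Monoid.CoprodI A) := QuotientGroup.lift M F hFM
  have hF' : ∀ g : G, F' (QuotientGroup.mk' M g) = F g := fun _ => rfl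
  have hVn : (V.map (QuotientGroup.mk' M)).Normal :=
    Subgroup.Normal.map inferInstance _ (QuotientGroup.mk'_surjective M)
  have hQ' : C ((G ⧸ M) ⧸ V.map (QuotientGroup.mk' M)) := by
    refine hC.base.of_injective _ (G ⧸ V) (QuotientGroup.lift _
      (QuotientGroup.map M V (MonoidHom.id G) hMV) ?_) ?_ hQ
    · rintro _ ⟨v, hv, rfl⟩
      show QuotientGroup.map M V (MonoidHom.id G) hMV (QuotientGroup.mk' M v) = 1
      exact (QuotientGroup.eq_one_iff v).2 hv
    · rw [injective_iff_map_eq_one]
      intro x hx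
      obtain ⟨y, rfl⟩ := QuotientGroup.mk'_surjective _ x
      obtain ⟨z, rfl⟩ := QuotientGroup.mk'_surjective _ y
      have hz : z ∈ V := (QuotientGroup.eq_one_iff z).1 hx
      exact (QuotientGroup.eq_one_iff _).2 ⟨z, hz, rfl⟩
  refine finitary hC (Pool.Agent.U863.CT.C_coprodI C hC.base hA) F' (V.map (QuotientGroup.mk' M))
    hQ' ?_
  rintro _ ⟨v, hv, rfl⟩
  have hv' : v ∈ V := hv
  rw [hF']
  refine ⟨⟨(hfin v hv').toFinset, fun i hi => ?_⟩, fun h => ?_⟩
  · rw [Set.Finite.mem_toFinset] at hi
    have h1 : K i v := by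
      by_contra hcon
      exact hi hcon
    refine ⟨(key v i hv').2 h1, ?_⟩
    rw [hFp, hV1 v hv']
    rfl
  · refine (QuotientGroup.eq_one_iff v).2 ((hM v hv').2 fun i => ?_)
    rw [← key v i hv', h]
    rfl

end Pool.Agent.U89.DL
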